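import Mathlib

/-!
# An identity element in the augmentation ideal

A group `Γ` acts linearly on the vector space `E`; `F` is a directed family of subgroups of `K` which is stable under
conjugation by `K` (for the action on `V`). If no member of `F` acts trivially on a quotient `W₂ / W₁` of `K`-invariant
subspaces between `W` and `V`, then for every `L ∈ F` some linear combination of the `a - 1`, `a ∈ L`, is the identity
on `V / W`.
-/

set_option autoImplicit false

namespace Pool.Agent.NH69.CH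

open Submodule

variable {Γ E : Type} [Group Γ] [AddCommGroup E] [Module ℝ E] (T : Γ →* Module.End ℝ E)

/-- the subspace `W` is invariant under `L` -/
def Inv (L : Subgroup Γ) (W : Submodule ℝ E) : Prop := ∀ a ∈ L, ∀ v ∈ W, T a v ∈ W

/-- the augmentation ideal of `L` -/
def I (L : Subgroup Γ) : Submodule ℝ (Module.End ℝ E) := span ℝ {x | ∃ a ∈ L, x = T a - 1}

variable {T}

theorem mem_I {L : Subgroup Γ} {a : Γ} (ha : a ∈ L) : T a - 1 ∈ I T L := subset_span ⟨a, ha, rfl⟩

theorem I_mono {L M : Subgroup Γ} (h : L ≤ M) : I T L ≤ I T M :=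
  span_mono fun _ ⟨a, ha, hx⟩ => ⟨a, h ha, hx⟩

theorem left_mem {L : Subgroup Γ} {a : Γ} (ha : a ∈ L) {j : Module.End ℝ E} (hj : j ∈ I T L) : T a * j ∈ I T L := by
  induction hj using span_induction with
  | mem x hx =>
    obtain ⟨b, hb, rfl⟩ := hx
    have h1 : T a * (T b - 1) = (T (a * b) - 1) - (T a - 1) := by
      rw [map_mul, mul_sub, mul_one]; abel
    rw [h1]
    exact (I T L).sub_mem (mem_I (L.mul_mem ha hb)) (mem_I ha)
  | zero => rw [mul_zero]; exact (I T L).zero_mem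
  | add x y _ _ hx hy => rw [mul_add]; exact (I T L).add_mem hx hy
  | smul c x _ hx => rw [mul_smul_comm]; exact (I T L).smul_mem c hx

theorem mul_mem {L : Subgroup Γ} {i j : Module.End ℝ E} (hi : i ∈ I T L) (hj : j ∈ I T L) : i * j ∈ I T L := by
  induction hi using span_induction with
  | mem x hx =>
    obtain ⟨a, ha, rfl⟩ := hx
    rw [sub_mul, one_mul]
    exact (I T L).sub_mem (left_mem ha hj) hj
  | zero => rw [zero_mul]; exact (I T L).zero_mem
  | add x y _ _ hx hy => rw [add_mul]; exact (I T L).add_mem hx hy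
  | smul c x _ hx => rw [smul_mul_assoc]; exact (I T L).smul_mem c hx

theorem pres {L : Subgroup Γ} {W : Submodule ℝ E} (hW : Inv T L W) {j : Module.End ℝ E} (hj : j ∈ I T L) :
    ∀ w ∈ W, j w ∈ W := by
  induction hj using span_induction with
  | mem x hx =>
    obtain ⟨a, ha, rfl⟩ := hx
    intro w hw
    rw [LinearMap.sub_apply]
    exact W.sub_mem (hW a ha w hw) hw
  | zero => intro w _; exact W.zero_mem
  | add x y _ _ hx hy => intro w hw; exact W.add_mem (hx w hw) (hy w hw)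
  | smul c x _ hx => intro w hw; exact W.smul_mem c (hx w hw)

/-- the vectors in `V` fixed by `L` modulo `W` -/
def Q (T : Γ →* Module.End ℝ E) (W V : Submodule ℝ E) (L : Subgroup Γ) : Submodule ℝ E where
  carrier := {v | v ∈ V ∧ ∀ a ∈ L, T a v - v ∈ W}
  add_mem' := by
    rintro x y ⟨hx, hx'⟩ ⟨hy, hy'⟩
    refine ⟨V.add_mem hx hy, fun a ha => ?_⟩
    have h1 : T a (x + y) - (x + y) = (T a x - x) + (T a y - y) := by rw [map_add]; abel
    rw [h1]
    exact W.add_mem (hx' a ha) (hy' a ha)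
  zero_mem' := ⟨V.zero_mem, fun a _ => by rw [map_zero, sub_zero]; exact W.zero_mem⟩
  smul_mem' := by
    rintro c x ⟨hx, hx'⟩
    refine ⟨V.smul_mem c hx, fun a ha => ?_⟩
    have h1 : T a (c • x) - c • x = c • (T a x - x) := by rw [map_smul, smul_sub]
    rw [h1]
    exact W.smul_mem c (hx' a ha)

theorem mem_Q {W V : Submodule ℝ E} {L : Subgroup Γ} {v : E} :
    v ∈ Q T W V L ↔ v ∈ V ∧ ∀ a ∈ L, T a v - v ∈ W := Iff.rfl

theorem Q_mono {W V : Submodule ℝ E} {L M : Subgroup Γ} (h : L ≤ M) : Q T W V M ≤ Q T W V L :=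
  fun _ hv => ⟨hv.1, fun a ha => hv.2 a (h ha)⟩

/-- a directed family of subgroups of `K`, stable under conjugation by `K` -/
structure Fam (T : Γ →* Module.End ℝ E) (K : Subgroup Γ) (V : Submodule ℝ E) (F : Set (Subgroup Γ)) : Prop where
  ne : F.Nonempty
  dir : ∀ L ∈ F, ∀ L' ∈ F, ∃ M ∈ F, M ≤ L ∧ M ≤ L'
  sub : ∀ L ∈ F, L ≤ K
  conj : ∀ γ ∈ K, ∀ L ∈ F, ∃ M ∈ F, ∀ a ∈ M, ∃ b ∈ L, ∀ v ∈ V, T (γ⁻¹ * a * γ) v = T b v

variable {K : Subgroup Γ} {V : Submodule ℝ E} {F : Set (Subgroup Γ)}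

theorem T_conj (γ a : Γ) (v : E) : T a (T γ v) = T γ (T (γ⁻¹ * a * γ) v) := by
  rw [← Module.End.mul_apply, ← Module.End.mul_apply, ← map_mul, ← map_mul]
  congr 2
  group

theorem T_inv (γ : Γ) (v : E) : T γ (T γ⁻¹ v) = v := by
  rw [← Module.End.mul_apply, ← map_mul, mul_inv_cancel, map_one]
  rfl

theorem T_inv' (γ : Γ) (v : E) : T γ⁻¹ (T γ v) = v := by
  rw [← Module.End.mul_apply, ← map_mul, inv_mul_cancel, map_one]
  rfl

theorem T_inj (γ : Γ) : Function.Injective (T γ) := by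
  intro x y h
  rw [← T_inv' (T := T) γ x, ← T_inv' (T := T) γ y, h]

/-- the case of an irreducible quotient -/
theorem irr [FiniteDimensional ℝ E] (hF : Fam T K V F) {W V' : Submodule ℝ E} (hWV : W < V') (hVV : V' ≤ V)
    (hW : Inv T K W) (hV' : Inv T K V')
    (hirr : ∀ Y : Submodule ℝ E, W ≤ Y → Y ≤ V' → Inv T K Y → Y = W ∨ Y = V')
    (hnt : ∀ L ∈ F, ∃ a ∈ L, ∃ v ∈ V', T a v - v ∉ W) :
    ∀ L ∈ F, ∃ t ∈ I T L, ∀ v ∈ V', t v - v ∈ W := by
  classical
  -- no fixed vectors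
  have hQ : ∀ L ∈ F, Q T W V' L ≤ W := by
    obtain ⟨_, ⟨L1, hL1, rfl⟩, hmax⟩ := (wellFounded_gt (α := Submodule ℝ E)).has_min (Q T W V' '' F) (hF.ne.image _)
    have h1 : ∀ L ∈ F, Q T W V' L ≤ Q T W V' L1 := by
      intro L hL
      obtain ⟨M, hM, hML, hML1⟩ := hF.dir L hL L1 hL1
      have h2 : Q T W V' L1 ≤ Q T W V' M := Q_mono hML1
      have h3 : ¬ Q T W V' L1 < Q T W V' M := fun h => hmax _ ⟨M, hM, rfl⟩ h
      have h4 : Q T W V' L1 = Q T W V' M := by
        by_contra h5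
        exact h3 (lt_of_le_of_ne h2 h5)
      rw [h4]
      exact Q_mono hML
    have h2 : Inv T K (Q T W V' L1) := by
      intro γ hγ v hv
      obtain ⟨M, hM, hconj⟩ := hF.conj γ hγ L1 hL1
      refine h1 M hM ⟨hV' γ hγ v hv.1, fun a ha => ?_⟩
      obtain ⟨b, hb, hab⟩ := hconj a ha
      rw [T_conj, hab v (hVV hv.1), ← map_sub]
      exact hW γ hγ _ (hv.2 b hb)
    have h3 : W ≤ Q T W V' L1 := fun w hw =>
      ⟨hWV.le hw, fun a ha => W.sub_mem (hW a (hF.sub L1 hL1 ha) w hw) hw⟩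
    have h4 : Q T W V' L1 ≤ V' := fun v hv => hv.1
    rcases hirr _ h3 h4 h2 with h5 | h5
    · intro L hL
      exact (h1 L hL).trans h5.le
    · exfalso
      obtain ⟨a, ha, v, hv, hn⟩ := hnt L1 hL1
      rw [← h5] at hv
      exact hn (hv.2 a ha)
  -- a minimal subspace
  have hex : ∃ n : ℕ, ∃ L ∈ F, ∃ P : Submodule ℝ E, Inv T L P ∧ W < P ∧ P ≤ V' ∧ Module.finrank ℝ P = n := by
    obtain ⟨L, hL⟩ := hF.ne
    exact ⟨_, L, hL, V', fun a ha => hV' a (hF.sub L hL ha), hWV, le_rfl, rfl⟩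
  obtain ⟨L0, hL0, P, hP, hWP, hPV, hPm⟩ := Nat.find_spec hex
  have hmin : ∀ L ∈ F, ∀ P' : Submodule ℝ E, Inv T L P' → W < P' → P' ≤ V' →
      Module.finrank ℝ P ≤ Module.finrank ℝ P' := by
    intro L hL P' h1 h2 h3
    rw [hPm]
    exact Nat.find_min' hex ⟨L, hL, P', h1, h2, h3, rfl⟩
  -- a maximal subspace
  obtain ⟨U, ⟨hUV, hU⟩, hUmax⟩ := (wellFounded_gt (α := Submodule ℝ E)).has_min
    {U : Submodule ℝ E | U ≤ V' ∧ ∀ L ∈ F, ∃ t ∈ I T L, ∀ u ∈ U, t u - u ∈ W}
    ⟨⊥, bot_le, fun L _ => ⟨0, (I T L).zero_mem, fun u hu => by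
      rw [(mem_bot ℝ).1 hu, map_zero, sub_zero]; exact W.zero_mem⟩⟩
  have hPU : ∀ γ ∈ K, P.map (T γ) ≤ U := by
    intro γ hγ v hv
    by_contra hvU
    have hP' : P.map (T γ) ≤ V' := by
      rintro _ ⟨p, hp, rfl⟩
      exact hV' γ hγ p (hPV hp)
    refine hUmax (U ⊔ span ℝ {v}) ⟨sup_le hUV ?_, ?_⟩ ?_
    · rw [span_singleton_le_iff_mem]
      exact hP' hv
    · intro L hL
      obtain ⟨M1, hM1, hconj⟩ := hF.conj γ hγ L0 hL0
      obtain ⟨M, hM, hML, hMM1⟩ := hF.dir L hL M1 hM1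
      have hMK := hF.sub M hM
      have hWM : Inv T M W := fun a ha => hW a (hMK ha)
      have hPM : Inv T M (P.map (T γ)) := by
        rintro a ha _ ⟨p, hp, rfl⟩
        obtain ⟨b, hb, hab⟩ := hconj a (hMM1 ha)
        rw [T_conj, hab p (hVV (hPV hp))]
        exact ⟨_, hP b hb p hp, rfl⟩
      have hWP' : W ≤ P.map (T γ) := fun w hw =>
        ⟨T γ⁻¹ w, hWP.le (hW γ⁻¹ (K.inv_mem hγ) w hw), T_inv γ w⟩
      have hfr : Module.finrank ℝ (P.map (T γ)) = Module.finrank ℝ P :=
        (Submodule.equivMapOfInjective (T γ) (T_inj γ) P).finrank_eq.symm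
      obtain ⟨t, ht, htU⟩ := hU M hM
      let P1 : Submodule ℝ E :=
        { carrier := {x | ∃ j ∈ I T M, (∀ u ∈ U, j u ∈ W) ∧ x - j v ∈ W}
          add_mem' := by
            rintro x y ⟨i, hi, hi', hx⟩ ⟨j, hj, hj', hy⟩
            refine ⟨i + j, (I T M).add_mem hi hj, fun u hu => W.add_mem (hi' u hu) (hj' u hu), ?_⟩
            have h1 : x + y - (i + j) v = (x - i v) + (y - j v) := by rw [LinearMap.add_apply]; abel
            rw [h1]
            exact W.add_mem hx hy
          zero_mem' := ⟨0, (I T M).zero_mem, fun u _ => W.zero_mem, by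
            rw [LinearMap.zero_apply, sub_zero]; exact W.zero_mem⟩
          smul_mem' := by
            rintro c x ⟨i, hi, hi', hx⟩
            refine ⟨c • i, (I T M).smul_mem c hi, fun u hu => W.smul_mem c (hi' u hu), ?_⟩
            have h1 : c • x - (c • i) v = c • (x - i v) := by rw [LinearMap.smul_apply, smul_sub]
            rw [h1]
            exact W.smul_mem c hx }
      have hWP1 : W ≤ P1 := fun w hw => ⟨0, (I T M).zero_mem, fun u _ => W.zero_mem, by
        rw [LinearMap.zero_apply, sub_zero]; exact hw⟩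
      have hP1M : Inv T M P1 := by
        rintro a ha x ⟨j, hj, hj', hx⟩
        refine ⟨T a * j, left_mem ha hj, fun u hu => hWM a ha _ (hj' u hu), ?_⟩
        rw [Module.End.mul_apply, ← map_sub]
        exact hWM a ha _ hx
      have hP1P : P1 ≤ P.map (T γ) := by
        rintro x ⟨j, hj, -, hx⟩
        have h1 : x = (x - j v) + j v := by abel
        rw [h1]
        exact (P.map (T γ)).add_mem (hWP' hx) (pres hPM hj v hv)
      have hr : ∀ a ∈ M, T a (v - t v) - (v - t v) ∈ P1 := by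
        intro a ha
        refine ⟨(T a - 1) - (T a - 1) * t, (I T M).sub_mem (mem_I ha) (mul_mem (mem_I ha) ht), fun u hu => ?_, ?_⟩
        · have h1 : ((T a - 1) - (T a - 1) * t) u = (t u - u) - T a (t u - u) := by
            simp only [LinearMap.sub_apply, Module.End.mul_apply, Module.End.one_apply, map_sub]
            abel
          rw [h1]
          exact W.sub_mem (htU u hu) (hWM a ha _ (htU u hu))
        · have h1 : T a (v - t v) - (v - t v) - ((T a - 1) - (T a - 1) * t) v = 0 := by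
            simp only [LinearMap.sub_apply, Module.End.mul_apply, Module.End.one_apply, map_sub]
            abel
          rw [h1]
          exact W.zero_mem
      have hmem : v - t v ∈ P1 := by
        by_contra hn
        let P2 : Submodule ℝ E := P1 ⊔ span ℝ {v - t v}
        have hr2 : v - t v ∈ P2 := mem_sup_right (mem_span_singleton_self _)
        have h12 : P1 < P2 := by
          refine lt_of_le_of_ne le_sup_left fun h => hn ?_
          rw [h]
          exact hr2
        have hP2P : P2 ≤ P.map (T γ) := by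
          refine sup_le hP1P ?_
          rw [span_singleton_le_iff_mem]
          exact (P.map (T γ)).sub_mem hv (pres hPM ht v hv)
        have hP2M : ∀ a ∈ M, ∀ x ∈ P2, T a x - x ∈ P1 → T a x ∈ P2 := by
          intro a _ x hx h
          have h1 : T a x = (T a x - x) + x := by abel
          rw [h1]
          exact P2.add_mem (mem_sup_left h) hx
        have hP2i : Inv T M P2 := by
          intro a ha x hx
          obtain ⟨y, hy, z, hz, rfl⟩ := mem_sup.1 hx
          obtain ⟨c, rfl⟩ := mem_span_singleton.1 hz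
          rw [map_add, map_smul]
          refine P2.add_mem (mem_sup_left (hP1M a ha y hy)) (P2.smul_mem c ?_)
          exact hP2M a ha _ hr2 (hr a ha)
        have hW2 : W < P2 := lt_of_le_of_lt hWP1 h12
        have h2 : P2 = P.map (T γ) := by
          refine Submodule.eq_of_le_of_finrank_le hP2P ?_
          rw [hfr]
          exact hmin M hM P2 hP2i hW2 (hP2P.trans hP')
        have h1W : P1 = W := by
          by_contra hne
          have h3 := hmin M hM P1 hP1M (lt_of_le_of_ne hWP1 (Ne.symm hne)) (hP1P.trans hP')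
          have h4 := Submodule.finrank_lt_finrank_of_lt h12
          have h5 := Submodule.finrank_mono hP2P
          rw [hfr] at h5
          omega
        have h3 : P.map (T γ) ≤ W := by
          have h6 : P.map (T γ) ≤ Q T W V' M := by
            intro x hx
            refine mem_Q.2 ⟨hP' hx, fun a ha => ?_⟩
            rw [← h2] at hx
            obtain ⟨y, hy, z, hz, rfl⟩ := mem_sup.1 hx
            obtain ⟨c, rfl⟩ := mem_span_singleton.1 hz
            have h4 : T a (y + c • (v - t v)) - (y + c • (v - t v)) =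
                (T a y - y) + c • (T a (v - t v) - (v - t v)) := by
              rw [map_add, map_smul]; module
            rw [h4, ← h1W]
            exact P1.add_mem (P1.sub_mem (hP1M a ha y hy) hy) (P1.smul_mem c (hr a ha))
          exact h6.trans (hQ M hM)
        have h4 := Submodule.finrank_mono h3
        have h5 := Submodule.finrank_lt_finrank_of_lt hWP
        rw [hfr] at h4
        omega
      obtain ⟨j, hj, hjU, hjv⟩ := hmem
      refine ⟨t + j, I_mono hML ((I T M).add_mem ht hj), fun x hx => ?_⟩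
      obtain ⟨y, hy, z, hz, rfl⟩ := mem_sup.1 hx
      obtain ⟨c, rfl⟩ := mem_span_singleton.1 hz
      have h1 : (t + j) (y + c • v) - (y + c • v) = (t y - y) + j y - c • (v - t v - j v) := by
        simp only [LinearMap.add_apply, map_add, map_smul]
        module
      rw [h1]
      exact W.sub_mem (W.add_mem (htU y hy) (hjU y hy)) (W.smul_mem c hjv)
    · refine lt_of_le_of_ne le_sup_left fun h => hvU ?_
      rw [h]
      exact mem_sup_right (mem_span_singleton_self _)
  -- conclusion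
  let Y : Submodule ℝ E := ⨆ γ : K, P.map (T γ.1)
  have hYU : Y ≤ U := iSup_le fun γ => hPU γ.1 γ.2
  have hPY : P ≤ Y := by
    refine le_trans (fun p hp => ?_) (le_iSup (fun γ : K => P.map (T γ.1)) 1)
    exact ⟨p, hp, by simp⟩
  have hYK : Inv T K Y := by
    intro δ hδ y hy
    have h1 : Y.map (T δ) ≤ Y := by
      rw [Submodule.map_iSup]
      refine iSup_le fun γ => ?_
      refine le_trans ?_ (le_iSup (fun γ : K => P.map (T γ.1)) ⟨δ * γ.1, K.mul_mem hδ γ.2⟩)
      rintro _ ⟨_, ⟨p, hp, rfl⟩, rfl⟩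
      exact ⟨p, hp, by rw [map_mul]; rfl⟩
    exact h1 ⟨y, hy, rfl⟩
  have hYV : Y = V' := by
    rcases hirr Y (hWP.le.trans hPY) (hYU.trans hUV) hYK with h | h
    · exact absurd (hPY.trans h.le) (not_le_of_gt hWP)
    · exact h
  intro L hL
  obtain ⟨t, ht, htU⟩ := hU L hL
  exact ⟨t, ht, fun v hv => htU v (hYU (hYV ▸ hv))⟩

/-- the general case -/
theorem exists_one [FiniteDimensional ℝ E] (hF : Fam T K V F) {W : Submodule ℝ E} (hWV : W ≤ V)
    (hW : Inv T K W) (hV : Inv T K V)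
    (hnt : ∀ W₁ W₂ : Submodule ℝ E, W ≤ W₁ → W₁ < W₂ → W₂ ≤ V → Inv T K W₁ → Inv T K W₂ →
      ∀ L ∈ F, ∃ a ∈ L, ∃ v ∈ W₂, T a v - v ∉ W₁) :
    ∀ L ∈ F, ∃ t ∈ I T L, ∀ v ∈ V, t v - v ∈ W := by
  obtain ⟨U, ⟨hWU, hUV, hUK, hU⟩, hUmax⟩ := (wellFounded_gt (α := Submodule ℝ E)).has_min
    {U : Submodule ℝ E | W ≤ U ∧ U ≤ V ∧ Inv T K U ∧ ∀ L ∈ F, ∃ t ∈ I T L, ∀ u ∈ U, t u - u ∈ W}
    ⟨W, le_rfl, hWV, hW, fun L hL => ⟨0, (I T L).zero_mem, fun u hu => by
      rw [LinearMap.zero_apply, zero_sub]; exact W.neg_mem hu⟩⟩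
  by_cases hne : U = V
  · rw [hne] at hU
    exact hU
  exfalso
  have hlt : U < V := lt_of_le_of_ne hUV hne
  obtain ⟨U', ⟨h1, h2, h3⟩, hmin⟩ := (wellFounded_lt (α := Submodule ℝ E)).has_min
    {Y : Submodule ℝ E | U < Y ∧ Y ≤ V ∧ Inv T K Y} ⟨V, hlt, le_rfl, hV⟩
  have key := irr hF h1 h2 hUK h3 (fun Y hY1 hY2 hY3 => by
    by_cases hYU : Y = U
    · exact Or.inl hYU
    · right
      by_contra hYU'
      exact hmin Y ⟨lt_of_le_of_ne hY1 (Ne.symm hYU), hY2.trans h2, hY3⟩ (lt_of_le_of_ne hY2 hYU'))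
    (fun L hL => hnt U U' hWU h1 h2 hUK h3 L hL)
  refine hUmax U' ⟨hWU.trans h1.le, h2, h3, fun L hL => ?_⟩ h1
  obtain ⟨t₁, ht₁, h4⟩ := hU L hL
  obtain ⟨t₂, ht₂, h5⟩ := key L hL
  refine ⟨t₁ + t₂ - t₁ * t₂, (I T L).sub_mem ((I T L).add_mem ht₁ ht₂) (mul_mem ht₁ ht₂), fun v hv => ?_⟩
  have h6 : (t₁ + t₂ - t₁ * t₂) v - v = -(t₁ (t₂ v - v) - (t₂ v - v)) := by
    simp only [LinearMap.sub_apply, LinearMap.add_apply, Module.End.mul_apply, map_sub]
    abel
  rw [h6]
  exact W.neg_mem (h4 _ (h5 v hv))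

end Pool.Agent.NH69.CH
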