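import Pool.Agent.Y150.Ch.Line
import Pool.Agent.NH69.CH.Alg

/-!
# Affine maps which commute with a large subgroup of the holonomy
-/

set_option autoImplicit false

namespace Pool.Agent.NH69.CH

open Submodule
open Pool.Agent.W689.Mk (hol_sub hol_inv_apply hol_apply_inv)
open Pool.Agent.Y150.Ch (T T_sub)

variable {Γ E : Type} [Group Γ] [NormedAddCommGroup E] [NormedSpace ℝ E] {hol : Γ →* (E ≃ᵃ[ℝ] E)}

/-- the affine maps of `H` which commute with `L` modulo `W` -/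
def Z (hol : Γ →* (E ≃ᵃ[ℝ] E)) (H : AffineSubspace ℝ E) (W : Submodule ℝ E) (L : Subgroup Γ) :
    Set (E →ᵃ[ℝ] E) :=
  {f | (∀ q ∈ H, f q ∈ H) ∧ (∀ w ∈ W, f.linear w ∈ W) ∧ ∀ a ∈ L, ∀ q ∈ H, f (hol a q) - hol a (f q) ∈ W}

theorem Z_mono {H : AffineSubspace ℝ E} {W : Submodule ℝ E} {L M : Subgroup Γ} (h : M ≤ L) :
    Z hol H W L ⊆ Z hol H W M := fun _ hf => ⟨hf.1, hf.2.1, fun a ha => hf.2.2 a (h ha)⟩

theorem lin_sub (f : E →ᵃ[ℝ] E) (p q : E) : f.linear (p - q) = f p - f q := by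
  have h1 := f.linearMap_vsub p q
  exact h1

theorem dir_sub {H : AffineSubspace ℝ E} {p q : E} (hp : p ∈ H) (hq : q ∈ H) : p - q ∈ H.direction :=
  AffineSubspace.vsub_mem_direction hp hq

theorem add_dir {H : AffineSubspace ℝ E} {p v : E} (hp : p ∈ H) (hv : v ∈ H.direction) : p + v ∈ H := by
  have h1 := AffineSubspace.vadd_mem_of_mem_direction hv hp
  rwa [vadd_eq_add, add_comm] at h1

/-- the displacement cocycle extended to the augmentation ideal -/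
theorem lift {H : AffineSubspace ℝ E} {W : Submodule ℝ E} {L : Subgroup Γ} {p : E} (hp : p ∈ H)
    (hL : ∀ a ∈ L, ∀ q ∈ H, hol a q ∈ H) {t : Module.End ℝ E} (ht : t ∈ I (T hol) L) :
    ∃ w ∈ H.direction, ∀ f ∈ Z hol H W L, t (f p - p) - (f.linear w - w) ∈ W := by
  induction ht using span_induction with
  | mem x hx =>
    obtain ⟨a, ha, rfl⟩ := hx
    refine ⟨hol a p - p, dir_sub (hL a ha p hp) hp, fun f hf => ?_⟩
    have h1 : (T hol a - 1) (f p - p) - (f.linear (hol a p - p) - (hol a p - p)) =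
        -(f (hol a p) - hol a (f p)) := by
      rw [LinearMap.sub_apply, T_sub, lin_sub, Module.End.one_apply]
      abel
    rw [h1]
    exact W.neg_mem (hf.2.2 a ha p hp)
  | zero =>
    refine ⟨0, H.direction.zero_mem, fun f _ => ?_⟩
    rw [LinearMap.zero_apply, map_zero, sub_zero, sub_zero]
    exact W.zero_mem
  | add x y _ _ hx hy =>
    obtain ⟨u, hu, hu'⟩ := hx
    obtain ⟨v, hv, hv'⟩ := hy
    refine ⟨u + v, H.direction.add_mem hu hv, fun f hf => ?_⟩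
    have h1 : (x + y) (f p - p) - (f.linear (u + v) - (u + v)) =
        (x (f p - p) - (f.linear u - u)) + (y (f p - p) - (f.linear v - v)) := by
      rw [LinearMap.add_apply, map_add]; abel
    rw [h1]
    exact W.add_mem (hu' f hf) (hv' f hf)
  | smul c x _ hx =>
    obtain ⟨u, hu, hu'⟩ := hx
    refine ⟨c • u, H.direction.smul_mem c hu, fun f hf => ?_⟩
    have h1 : (c • x) (f p - p) - (f.linear (c • u) - c • u) = c • (x (f p - p) - (f.linear u - u)) := by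
      rw [LinearMap.smul_apply, map_smul]; module
    rw [h1]
    exact W.smul_mem c (hu' f hf)

/-- a common fixed point -/
theorem fix_one {H : AffineSubspace ℝ E} {W : Submodule ℝ E} {L : Subgroup Γ} {p : E} (hp : p ∈ H)
    (hL : ∀ a ∈ L, ∀ q ∈ H, hol a q ∈ H)
    (ht : ∃ t ∈ I (T hol) L, ∀ v ∈ H.direction, t v - v ∈ W) :
    ∃ q ∈ H, ∀ f ∈ Z hol H W L, f q - q ∈ W := by
  obtain ⟨t, ht, h1⟩ := ht
  obtain ⟨w, hw, h2⟩ := lift (W := W) hp hL ht
  refine ⟨p - w, ?_, fun f hf => ?_⟩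
  · rw [sub_eq_add_neg]
    exact add_dir hp (H.direction.neg_mem hw)
  · have h3 : f (p - w) = f p - f.linear w := by
      have h4 := lin_sub f p (p - w)
      rw [sub_sub_cancel] at h4
      rw [h4]; abel
    have h4 : f (p - w) - (p - w) =
        (t (f p - p) - (f.linear w - w)) - (t (f p - p) - (f p - p)) := by
      rw [h3]; abel
    rw [h4]
    exact W.sub_mem (h2 f hf) (h1 _ (dir_sub (hf.1 p hp) hp))

/-- the directions of the set of common fixed points -/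
def UU (hol : Γ →* (E ≃ᵃ[ℝ] E)) (H : AffineSubspace ℝ E) (W : Submodule ℝ E) (L : Subgroup Γ) :
    Submodule ℝ E where
  carrier := {v | v ∈ H.direction ∧ ∀ f ∈ Z hol H W L, f.linear v - v ∈ W}
  add_mem' := by
    rintro x y ⟨hx, hx'⟩ ⟨hy, hy'⟩
    refine ⟨H.direction.add_mem hx hy, fun f hf => ?_⟩
    have h1 : f.linear (x + y) - (x + y) = (f.linear x - x) + (f.linear y - y) := by rw [map_add]; abel
    rw [h1]
    exact W.add_mem (hx' f hf) (hy' f hf)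
  zero_mem' := ⟨H.direction.zero_mem, fun f _ => by rw [map_zero, sub_zero]; exact W.zero_mem⟩
  smul_mem' := by
    rintro c x ⟨hx, hx'⟩
    refine ⟨H.direction.smul_mem c hx, fun f hf => ?_⟩
    have h1 : f.linear (c • x) - c • x = c • (f.linear x - x) := by rw [map_smul, smul_sub]
    rw [h1]
    exact W.smul_mem c (hx' f hf)

/-- a directed family of subgroups of `K`, stable under conjugation by `K` -/
structure AFam (hol : Γ →* (E ≃ᵃ[ℝ] E)) (K : Subgroup Γ) (H : AffineSubspace ℝ E) (F : Set (Subgroup Γ)) :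
    Prop where
  ne : F.Nonempty
  dir : ∀ L ∈ F, ∀ L' ∈ F, ∃ M ∈ F, M ≤ L ∧ M ≤ L'
  sub : ∀ L ∈ F, L ≤ K
  conj : ∀ γ ∈ K, ∀ L ∈ F, ∃ M ∈ F, ∀ a ∈ M, ∃ b ∈ L, ∀ q ∈ H, hol (γ * a * γ⁻¹) q = hol b q

variable {K : Subgroup Γ} {H : AffineSubspace ℝ E} {F : Set (Subgroup Γ)}

theorem AFam.fam (hF : AFam hol K H F) {p : E} (hp : p ∈ H) : Fam (T hol) K H.direction F := by
  refine ⟨hF.ne, hF.dir, hF.sub, fun γ hγ L hL => ?_⟩
  obtain ⟨M, hM, h⟩ := hF.conj γ⁻¹ (K.inv_mem hγ) L hL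
  refine ⟨M, hM, fun a ha => ?_⟩
  obtain ⟨b, hb, h1⟩ := h a ha
  refine ⟨b, hb, fun v hv => ?_⟩
  rw [inv_inv] at h1
  have h2 : v = (p + v) - p := by abel
  rw [h2, T_sub, T_sub, h1 _ (add_dir hp hv), h1 _ hp]

/-- **the main step** -/
theorem only_id [FiniteDimensional ℝ E] (hF : AFam hol K H F) {p : E} (hp : p ∈ H)
    (hK : ∀ γ ∈ K, ∀ q ∈ H, hol γ q ∈ H)
    (haff : ∀ S : Set E, S.Nonempty → S ⊆ H → (∀ x ∈ S, ∀ y ∈ S, ∀ s t : ℝ, s + t = 1 → s • x + t • y ∈ S) →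
      (∀ γ ∈ K, ∀ q ∈ S, hol γ q ∈ S) → S = H)
    {W : Submodule ℝ E} (hWV : W ≤ H.direction) (hW : Inv (T hol) K W)
    (hnt : ∀ W₁ W₂ : Submodule ℝ E, W ≤ W₁ → W₁ < W₂ → W₂ ≤ H.direction → Inv (T hol) K W₁ →
      Inv (T hol) K W₂ → ∀ L ∈ F, ∃ a ∈ L, ∃ v ∈ W₂, T hol a v - v ∉ W₁) :
    ∀ L ∈ F, ∀ f ∈ Z hol H W L, ∀ q ∈ H, f q - q ∈ W := by
  have hV : Inv (T hol) K H.direction := by
    intro γ hγ v hv
    have h2 : v = (p + v) - p := by abel
    rw [h2, T_sub]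
    exact dir_sub (hK γ hγ _ (add_dir hp hv)) (hK γ hγ p hp)
  have hone := exists_one (hF.fam hp) hWV hW hV hnt
  have hfix : ∀ L ∈ F, ∃ q ∈ H, ∀ f ∈ Z hol H W L, f q - q ∈ W := fun L hL =>
    fix_one hp (fun a ha => hK a (hF.sub L hL ha)) (hone L hL)
  -- a common fixed point for the whole family
  obtain ⟨_, ⟨L₁, hL₁, rfl⟩, hmin⟩ := (wellFounded_lt (α := Submodule ℝ E)).has_min (UU hol H W '' F)
    (hF.ne.image _)
  obtain ⟨q₁, hq₁, hf₁⟩ := hfix L₁ hL₁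
  have hall : ∀ L ∈ F, ∀ f ∈ Z hol H W L, f q₁ - q₁ ∈ W := by
    intro L hL f hf
    obtain ⟨M, hM, hML, hML₁⟩ := hF.dir L hL L₁ hL₁
    obtain ⟨q₂, hq₂, hf₂⟩ := hfix M hM
    have hle : UU hol H W M ≤ UU hol H W L₁ := fun v hv => ⟨hv.1, fun g hg => hv.2 g (Z_mono hML₁ hg)⟩
    have heq : UU hol H W M = UU hol H W L₁ := by
      by_contra hne
      exact hmin _ ⟨M, hM, rfl⟩ (lt_of_le_of_ne hle hne)
    have h1 : q₂ - q₁ ∈ UU hol H W L₁ := by
      refine ⟨dir_sub hq₂ hq₁, fun g hg => ?_⟩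
      have h2 : g.linear (q₂ - q₁) - (q₂ - q₁) = (g q₂ - q₂) - (g q₁ - q₁) := by
        rw [lin_sub]; abel
      rw [h2]
      exact W.sub_mem (hf₂ g (Z_mono hML₁ hg)) (hf₁ g hg)
    rw [← heq] at h1
    have h3 := h1.2 f (Z_mono hML hf)
    have h4 : f q₁ - q₁ = (f q₂ - q₂) - (f.linear (q₂ - q₁) - (q₂ - q₁)) := by
      rw [lin_sub]; abel
    rw [h4]
    exact W.sub_mem (hf₂ f (Z_mono hML hf)) h3
  have hS := haff {q | q ∈ H ∧ ∀ L ∈ F, ∀ f ∈ Z hol H W L, f q - q ∈ W} ⟨q₁, hq₁, hall⟩ (fun q hq => hq.1) ?_ ?_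
  · intro L hL f hf q hq
    have h1 : q ∈ {q | q ∈ H ∧ ∀ L ∈ F, ∀ f ∈ Z hol H W L, f q - q ∈ W} := by rw [hS]; exact hq
    exact h1.2 L hL f hf
  · intro x hx q hq s t hst
    have hs' : s = 1 - t := by linarith
    have h0 : (s • x + t • q) - x = t • (q - x) := by rw [hs']; module
    refine ⟨?_, fun L hL f hf => ?_⟩
    · have h1 : s • x + t • q = x + t • (q - x) := by rw [← h0]; abel
      rw [h1]
      exact add_dir hx.1 (H.direction.smul_mem t (dir_sub hq.1 hx.1))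
    have h1 : f.linear ((s • x + t • q) - x) = t • (f q - f x) := by
      rw [h0, map_smul, lin_sub]
    rw [lin_sub] at h1
    have h2 : f (s • x + t • q) - (s • x + t • q) = s • (f x - x) + t • (f q - q) := by
      rw [sub_eq_iff_eq_add] at h1
      rw [h1, hs']
      module
    rw [h2]
    exact W.add_mem (W.smul_mem s (hx.2 L hL f hf)) (W.smul_mem t (hq.2 L hL f hf))
  · rintro γ hγ q ⟨hq, hqf⟩
    refine ⟨hK γ hγ q hq, fun L hL f hf => ?_⟩
    obtain ⟨M, hM, hconj⟩ := hF.conj γ hγ L hL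
    have hγi := K.inv_mem hγ
    let f' : E →ᵃ[ℝ] E := ((hol γ⁻¹ : E ≃ᵃ[ℝ] E) : E →ᵃ[ℝ] E).comp (f.comp ((hol γ : E ≃ᵃ[ℝ] E) : E →ᵃ[ℝ] E))
    have hf' : ∀ x, f' x = hol γ⁻¹ (f (hol γ x)) := fun x => rfl
    have hlin : ∀ v, f'.linear v = T hol γ⁻¹ (f.linear (T hol γ v)) := fun v => rfl
    have hZ : f' ∈ Z hol H W M := by
      refine ⟨fun x hx => ?_, fun w hw => ?_, fun a ha x hx => ?_⟩
      · rw [hf']
        exact hK _ hγi _ (hf.1 _ (hK γ hγ x hx))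
      · rw [hlin]
        exact hW _ hγi _ (hf.2.1 _ (hW γ hγ w hw))
      · obtain ⟨b, hb, hab⟩ := hconj a ha
        have hconv : ∀ y ∈ H, hol b (hol γ y) = hol γ (hol a y) := by
          intro y hy
          rw [← hab _ (hK γ hγ y hy), map_mul, map_mul]
          show hol γ (hol a (hol γ⁻¹ (hol γ y))) = _
          rw [hol_inv_apply]
        have hz : hol γ⁻¹ (f (hol γ x)) ∈ H := hK _ hγi _ (hf.1 _ (hK γ hγ x hx))
        have h1 : hol b (f (hol γ x)) = hol γ (hol a (hol γ⁻¹ (f (hol γ x)))) := by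
          rw [← hconv _ hz, hol_apply_inv]
        have h2 : f' (hol a x) - hol a (f' x) =
            T hol γ⁻¹ (f (hol b (hol γ x)) - hol b (f (hol γ x))) := by
          rw [hf', hf', T_sub, hconv x hx, h1, hol_inv_apply]
        rw [h2]
        exact hW _ hγi _ (hf.2.2 b hb _ (hK γ hγ x hx))
    have h3 : f (hol γ q) - hol γ q = T hol γ (f' q - q) := by
      rw [T_sub, hf', hol_apply_inv]
    rw [h3]
    exact hW γ hγ _ (hqf M hM f' hZ)

end Pool.Agent.NH69.CH
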