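import Pool.Agent.NH69.CH.Aff

/-!
# The families of subgroups, and the irreducible case
-/

set_option autoImplicit false

namespace Pool.Agent.NH69.CH

open Submodule Topology
open scoped Pointwise
open Pool.Agent.W689.Mk (hol_sub hol_inv_apply hol_apply_inv)
open Pool.Agent.Y150.Ch (T T_sub mem_conj)
open Pool.Agent.W689.Ch (AffMfd)
open Pool.Agent.TH845.Mk (compact_disjoint)

variable {X Γ E : Type} [TopologicalSpace X] [Group Γ] [MulAction Γ X] [NormedAddCommGroup E] [NormedSpace ℝ E]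
  {dev : X → E} {hol : Γ →* (E ≃ᵃ[ℝ] E)} {K N : Subgroup Γ} {H : AffineSubspace ℝ E}

theorem afam_normal (hN : N ≤ K) (hnor : ∀ γ ∈ K, ∀ a ∈ N, ∃ b ∈ N, ∀ q ∈ H, hol (γ * a * γ⁻¹) q = hol b q) :
    AFam hol K H {N} := by
  refine ⟨⟨N, rfl⟩, ?_, ?_, ?_⟩
  · rintro L rfl L' rfl
    exact ⟨L', rfl, le_rfl, le_rfl⟩
  · rintro L rfl
    exact hN
  · rintro γ hγ L rfl
    exact ⟨L, rfl, fun a ha => hnor γ hγ a ha⟩

theorem afam_comm (hN : N ≤ K) (hcom : K ≤ Subgroup.Commensurable.commensurator N) :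
    AFam hol K H {L | L ≤ N ∧ L.relIndex N ≠ 0} := by
  refine ⟨⟨N, le_rfl, by rw [Subgroup.relIndex_self]; exact one_ne_zero⟩, ?_, ?_, ?_⟩
  · rintro L ⟨h1, h2⟩ L' ⟨h3, h4⟩
    exact ⟨L ⊓ L', ⟨inf_le_left.trans h1, Subgroup.relIndex_inf_ne_zero h2 h4⟩, inf_le_left, inf_le_right⟩
  · rintro L ⟨h1, -⟩
    exact h1.trans hN
  · rintro γ hγ L ⟨hLN, hL⟩
    have h0 := hcom (K.inv_mem hγ)
    refine ⟨(ConjAct.toConjAct γ⁻¹ • L) ⊓ N, ⟨inf_le_right, ?_⟩, ?_⟩
    · rw [Subgroup.inf_relIndex_right]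
      have h1 : Subgroup.Commensurable L N := ⟨hL, by
        rw [Subgroup.relIndex_eq_one.2 hLN]; exact one_ne_zero⟩
      exact ((h1.conj (ConjAct.toConjAct γ⁻¹)).trans h0).1
    · rintro a ⟨ha, -⟩
      have h1 := mem_conj.1 ha
      rw [inv_inv] at h1
      exact ⟨_, h1, fun q _ => rfl⟩

/-- a set closed under affine combinations of two points -/
theorem to_affine {S : Set E} (hc : ∀ x ∈ S, ∀ y ∈ S, ∀ s t : ℝ, s + t = 1 → s • x + t • y ∈ S) :
    ∃ A : AffineSubspace ℝ E, (A : Set E) = S := by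
  refine ⟨{ carrier := S, smul_vsub_vadd_mem' := fun c p q r hp hq hr => ?_ }, rfl⟩
  have h1 := hc p hp q hq c (1 - c) (by ring)
  have h2 := hc _ h1 r hr (1 / 2) (1 / 2) (by norm_num)
  have h3 := hc _ h2 q hq 2 (-1) (by norm_num)
  have h4 : c • (p -ᵥ q) +ᵥ r =
      (2 : ℝ) • ((1 / 2 : ℝ) • (c • p + (1 - c) • q) + (1 / 2 : ℝ) • r) + (-1 : ℝ) • q := by
    rw [vsub_eq_sub, vadd_eq_add]
    module
  rw [h4]
  exact h3

/-- a subgroup of finite index with an irreducible linear part has no proper invariant affine subspace, unless the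
manifold is radiant -/
theorem haff_irr [T2Space X] [PreconnectedSpace X] [Nontrivial E] [FiniteDimensional ℝ E] (D : AffMfd X Γ E dev hol)
    (hK : K.FiniteIndex) (hirr : ∀ W : Submodule ℝ E, Inv (T hol) K W → W = ⊥ ∨ W = ⊤)
    (hno : ¬ ∃ p : E, (∀ x, dev x ≠ p) ∧ ∀ γ ∈ K, hol γ p = p) :
    ∀ S : Set E, S.Nonempty → S ⊆ ((⊤ : AffineSubspace ℝ E) : Set E) →
      (∀ x ∈ S, ∀ y ∈ S, ∀ s t : ℝ, s + t = 1 → s • x + t • y ∈ S) →
      (∀ γ ∈ K, ∀ q ∈ S, hol γ q ∈ S) → S = ((⊤ : AffineSubspace ℝ E) : Set E) := by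
  intro S hne _ hc hinv
  obtain ⟨A, rfl⟩ := to_affine hc
  obtain ⟨p, hp⟩ := hne
  have hdir : Inv (T hol) K A.direction := by
    intro γ hγ v hv
    have h2 : v = (p + v) - p := by abel
    rw [h2, T_sub]
    exact dir_sub (hinv γ hγ _ (add_dir hp hv)) (hinv γ hγ p hp)
  rcases hirr _ hdir with h | h
  · exfalso
    have hfix : ∀ γ ∈ K, hol γ p = p := by
      intro γ hγ
      have h1 := dir_sub (hinv γ hγ p hp) hp
      rw [h, mem_bot] at h1
      exact sub_eq_zero.1 h1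
    refine hno ⟨p, fun x hx => ?_, hfix⟩
    refine compact_disjoint (Pool.Agent.Y150.Ch.restr D K hK) (K₀ := {p}) isCompact_singleton ?_ x hx
    rintro γ q rfl
    exact hfix γ.1 γ.2
  · rw [(AffineSubspace.direction_eq_top_iff_of_nonempty ⟨p, hp⟩).1 h]

end Pool.Agent.NH69.CH
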